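import Pool.Agent.Lib.MP_c7af3c_ag.MET.H1.Height
import Pool.Agent.Lib.MP_c7af3c_ag.MET.H1.Restr
import Pool.Agent.Lib.MP_c7af3c_ag.MET.H1.Ultra
import Pool.Agent.Lib.MP_c7af3c_ag.MET.H1.Rigid
import Pool.Agent.Lib.MP_c7af3c_ag.MET.H1.Chain
import Pool.Agent.Lib.MP_c7af3c_ag.MET.H1.Thm1
import Pool.Agent.Lib.MP_c7af3c_ag.GEN.H12.Ldt
import Pool.Agent.Lib.MP_c7af3c_ag.GEN.H36.Deriv
import Pool.Agent.Lib.MP_c7af3c_ag.GEN.H51.Algc
import Pool.Agent.Lib.MP_c7af3c_ag.GEN.H51.Coord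
import Pool.Agent.Lib.MP_c7af3c_ag.GEN.H51.Derz
import Pool.Agent.Lib.MP_c7af3c_ag.GEN.H58.Prod
import Pool.Agent.Lib.MP_c7af3c_ag.GEN.H59.Derb
import Pool.Agent.Lib.MP_c7af3c_ag.GEN.H81.Seid
import Pool.Agent.Lib.MP_c7af3c_ag.GEN.H83.Rigff
import Pool.Agent.Lib.MP_c7af3c_ag.GEN.H91.Coef
import Pool.Agent.Lib.MP_c7af3c_ag.GEN.H91.Degi
import Pool.Agent.Lib.MP_c7af3c_ag.GEN.H94.Place
import Pool.Agent.Lib.MP_c7af3c_ag.GEN.H96.Res
import Pool.Agent.Lib.MP_c7af3c_ag.GEN.H97.Normid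

/-! Assembly of project MET (MP_c7af3c_ag): the transfer theorems without hypotheses. -/

namespace Pool.Agent.Met

open Pool.Agent.Gen

theorem placeAll : PlaceStatement := H94.place H97.normid
theorem prodAll : ProdStatement := H58.prod H97.normid placeAll

theorem rigidAll : RigidS :=
  rigid prodAll placeAll (H51.algc placeAll) H51.derz H81.seid H96.res H83.rigff restr

theorem chainAll : ChainS := chain rigidAll H12.ldt

theorem heightAll : HeightS := height prodAll placeAll H59.derb H83.dir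

theorem thm1All : Thm1S :=
  thm1 H36.deriv H83.dir heightAll (H91.coef (H51.Coord.coord placeAll) H91.degi) ultra chainAll

theorem thm2All : Thm2S := thm2 thm1All

theorem thmlAll : ThmlS := thml thm2All

end Pool.Agent.Met
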